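import Mathlib

set_option autoImplicit false
open TensorProduct Coalgebra

namespace Pool.Agent.Results.MP_abbe90_al.NotYD

universe u
variable (k : Type) [Field k]

/-- the comultiplication of x tensor y, pushed through a bilinear map in each factor -/
noncomputable def two {C H : Type*} [AddCommGroup C] [Module k C] [Coalgebra k C]
    [AddCommGroup H] [Module k H] [Coalgebra k H] (op : C →ₗ[k] H →ₗ[k] C) (x : C) (y : H) :
    C ⊗[k] C :=
  map (lift op) (lift op) (tensorTensorTensorComm k C C H H (comul x ⊗ₜ comul y))

structure IsRack {C : Type} [AddCommGroup C] [Module k C] [Coalgebra k C] (one : C)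
    (op : C →ₗ[k] C →ₗ[k] C) : Prop where
  comul_one : comul (R := k) one = one ⊗ₜ one
  counit_one : counit (R := k) one = 1
  comul_op : ∀ x y, comul (op x y) = two k op x y
  counit_op : ∀ x y, counit (R := k) (op x y) = counit x * counit y
  distrib : ∀ x y z, op (op x y) z = lift op (map (op x) (op y) (comul z))
  op_one : ∀ x, op x one = x
  one_op : ∀ x, op one x = counit (R := k) x • one

structure IsYD {C : Type} [AddCommGroup C] [Module k C] [Coalgebra k C] (one : C)
    (op : C →ₗ[k] C →ₗ[k] C) {H : Type u} [Ring H] [Bialgebra k H] (act : C →ₗ[k] H →ₗ[k] C)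
    (q : C →ₗ[k] H) : Prop where
  act_one : ∀ x, act x 1 = x
  act_mul : ∀ x g h, act x (g * h) = act (act x g) h
  comul_act : ∀ x h, comul (act x h) = two k act x h
  counit_act : ∀ x h, counit (R := k) (act x h) = counit x * counit h
  comul_q : ∀ x, comul (q x) = map q q (comul x)
  counit_q : ∀ x, counit (R := k) (q x) = counit x
  q_one : q one = 1
  op_eq : ∀ a b, op a b = act a (q b)
  yd : ∀ a h, LinearMap.mul' k H (map LinearMap.id (q ∘ₗ act a) (comul h)) = q a * h

def C : Type := Fin 5 → k
instance : AddCommGroup (C k) := inferInstanceAs (AddCommGroup (Fin 5 → k))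
instance : Module k (C k) := inferInstanceAs (Module k (Fin 5 → k))
noncomputable def bs : Module.Basis (Fin 5) k (C k) := Pi.basisFun k (Fin 5)

/-- basis 1, a, z, x, x' -/
noncomputable def cm : C k →ₗ[k] C k ⊗[k] C k := (bs k).constr k
  ![bs k 0 ⊗ₜ bs k 0, bs k 1 ⊗ₜ bs k 0 + bs k 0 ⊗ₜ bs k 1, bs k 2 ⊗ₜ bs k 0 + bs k 0 ⊗ₜ bs k 2,
    bs k 3 ⊗ₜ bs k 0 + bs k 0 ⊗ₜ bs k 3 + bs k 1 ⊗ₜ bs k 2,
    bs k 4 ⊗ₜ bs k 0 + bs k 0 ⊗ₜ bs k 4 - bs k 1 ⊗ₜ bs k 1]

noncomputable def cu : C k →ₗ[k] k := (bs k).constr k ![1, 0, 0, 0, 0]

noncomputable def opC : C k →ₗ[k] C k →ₗ[k] C k := (bs k).constr k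
  ![(bs k).constr k ![bs k 0, 0, 0, 0, 0], (bs k).constr k ![bs k 1, 0, bs k 1, 0, 0],
    (bs k).constr k ![bs k 2, -bs k 1, 0, 0, 0], (bs k).constr k ![bs k 3, bs k 4, bs k 3, 0, 0],
    (bs k).constr k ![bs k 4, 0, bs k 4 + bs k 4, 0, 0]]

noncomputable instance : Coalgebra k (C k) where
  comul := cm k
  counit := cu k
  coassoc := (bs k).ext fun i => by
    fin_cases i <;> simp [cm, tmul_add, add_tmul, tmul_sub, sub_tmul] <;> abel
  rTensor_counit_comp_comul := (bs k).ext fun i => by fin_cases i <;> simp [cm, cu]
  lTensor_counit_comp_comul := (bs k).ext fun i => by fin_cases i <;> simp [cm, cu]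

lemma comul_eq : (comul : C k →ₗ[k] _) = cm k := rfl
lemma counit_eq : (counit : C k →ₗ[k] _) = cu k := rfl

lemma ind {p : C k → Prop} (hb : ∀ i, p (bs k i)) (ha : ∀ x y, p x → p y → p (x + y))
    (hs : ∀ (c : k) x, p x → p (c • x)) (x : C k) : p x := by
  rw [← (bs k).sum_repr x, Fin.sum_univ_five]
  exact ha _ _ (ha _ _ (ha _ _ (ha _ _ (hs _ _ (hb _)) (hs _ _ (hb _))) (hs _ _ (hb _)))
    (hs _ _ (hb _))) (hs _ _ (hb _))

lemma rack : IsRack k (bs k 0) (opC k) where
  comul_one := by simp [comul_eq, cm]
  counit_one := by simp [counit_eq, cu]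
  comul_op x y := by
    induction x using ind with
    | ha x x' p q => simp only [two, map_add, LinearMap.add_apply, add_tmul, p, q]
    | hs c x p => simp only [two, map_smul, LinearMap.smul_apply, ← smul_tmul', p]
    | hb i =>
      induction y using ind with
      | ha y y' p q => simp only [two, map_add, tmul_add, p, q]
      | hs c y p => simp only [two, map_smul, tmul_smul, p]
      | hb j =>
        fin_cases i <;> fin_cases j <;>
          simp [two, comul_eq, cm, opC, -Module.Basis.constr_apply_fintype, tmul_add, add_tmul, tmul_sub, sub_tmul, tmul_neg,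
            neg_tmul] <;> abel
  counit_op x y := by
    induction x using ind with
    | ha x x' p q => simp only [map_add, LinearMap.add_apply, add_mul, p, q]
    | hs c x p => simp only [map_smul, LinearMap.smul_apply, p, smul_eq_mul, mul_assoc]
    | hb i =>
      induction y using ind with
      | ha y y' p q => simp only [map_add, mul_add, p, q]
      | hs c y p => simp only [map_smul, p, smul_eq_mul, mul_left_comm]
      | hb j => fin_cases i <;> fin_cases j <;> simp [counit_eq, cu, opC, -Module.Basis.constr_apply_fintype]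
  distrib x y z := by
    induction x using ind with
    | ha x x' p q => simp only [map_add, LinearMap.add_apply, map_add_left, p, q]
    | hs c x p => simp only [map_smul, LinearMap.smul_apply, map_smul_left, p]
    | hb i =>
      induction y using ind with
      | ha y y' p q => simp only [map_add, LinearMap.add_apply, map_add_right, p, q]
      | hs c y p => simp only [map_smul, LinearMap.smul_apply, map_smul_right, p]
      | hb j =>
        induction z using ind with
        | ha y y' p q => simp only [map_add, p, q]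
        | hs c y p => simp only [map_smul, p]
        | hb l => fin_cases i <;> fin_cases j <;> fin_cases l <;> simp [comul_eq, cm, opC, -Module.Basis.constr_apply_fintype]
  op_one x := by
    induction x using ind with
    | ha x x' p q => simp only [map_add, LinearMap.add_apply, p, q]
    | hs c x p => simp only [map_smul, LinearMap.smul_apply, p]
    | hb i => fin_cases i <;> simp [opC, -Module.Basis.constr_apply_fintype]
  one_op x := by
    induction x using ind with
    | ha x x' p q => simp only [map_add, add_smul, p, q]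
    | hs c x p => simp only [map_smul, p, smul_eq_mul, mul_smul]
    | hb i => fin_cases i <;> simp [opC, -Module.Basis.constr_apply_fintype, counit_eq, cu]

theorem result : ∃ (C : Type) (_ : AddCommGroup C) (_ : Module k C) (_ : Coalgebra k C) (one : C)
    (op : C →ₗ[k] C →ₗ[k] C), IsRack k one op ∧
    ∀ (H : Type u) [Ring H] [Bialgebra k H] (act : C →ₗ[k] H →ₗ[k] C) (q : C →ₗ[k] H),
      ¬ IsYD k one op act q := by
  refine ⟨C k, inferInstance, inferInstance, inferInstance, bs k 0, opC k, rack k,
    fun H _ _ act q h => ?_⟩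
  have dA := h.comul_q (bs k 1)
  have dZ := h.comul_q (bs k 2)
  have dX := h.comul_q (bs k 3)
  simp [comul_eq, cm, h.q_one] at dA dZ dX
  have y1 := h.yd (bs k 1) (q (bs k 2))
  have y2 := h.yd (bs k 1) (q (bs k 3))
  simp [dZ, dX, h.act_one, ← h.op_eq, opC, -Module.Basis.constr_apply_fintype] at y1 y2
  have y3 := congrArg (comul (R := k)) y2
  simp only [map_add, Bialgebra.comul_mul, dA, dX, add_mul, mul_add,
    Algebra.TensorProduct.tmul_mul_tmul, mul_one, one_mul] at y3
  rw [← y1, ← y2] at y3
  simp only [tmul_add, add_tmul] at y3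
  have y4 : q (bs k 1) ⊗ₜ[k] q (bs k 1) = 0 := by linear_combination (norm := abel1) y3
  have y5 := congrArg (map (act (bs k 2)) (act (bs k 2))) y4
  simp [← h.op_eq, opC, -Module.Basis.constr_apply_fintype, tmul_neg, neg_tmul] at y5
  have y6 := congrArg (fun t => ((bs k).tensorProduct (bs k)).repr t (1, 1)) y5
  simp at y6

end Pool.Agent.Results.MP_abbe90_al.NotYD
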